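import Pool.Agent.Lib.MP_9ff751_an.Final

/-!
# The eigenvalues of the transfer operator `G_4` alternate in sign

`X` is the Banach space of the functions continuous on the closed disc `Dbar` with centre `1` and
radius `3/2` and analytic in the open disc, with the supremum norm, and
`G_4 f (z) = ∑_{k ≥ 1} (k + z)^(-4) f (1 / (k + z))`.
-/

namespace Pool.Agent.Results.MP_9ff751_an.Alternate

open Pool.Agent.Lib.MP_9ff751_an Module Module.End

/-- The Banach space `X` of the problem (the subspace `X` of the space `C(Dbar, ℂ)` of the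
continuous functions on the closed disc, as a type). -/
def XS : Type := X

/-- The norm of `X` is the supremum norm. -/
noncomputable instance normedAddCommGroupXS : NormedAddCommGroup XS :=
  Submodule.normedAddCommGroup X

/-- The structure of a normed space over the complex numbers. -/
noncomputable instance normedSpaceXS : NormedSpace ℂ XS := Submodule.normedSpace X

/-- The value of `f` at a point `z` of the closed disc `Dbar`. -/
noncomputable def ev (f : XS) (z : ℂ) : ℂ := ext f.1 z

/-- `G` is the transfer operator `G_4` on `X`. (The points `1 / (k + z)`, `k ≥ 1`, `z ∈ Dbar`,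
belong to `Dbar`.) -/
def IsG4 (G : XS →L[ℂ] XS) : Prop :=
  ∀ f : XS, ∀ z ∈ Dbar, HasSum (fun k : ℕ => 1 / ((k : ℂ) + 1 + z) ^ 4 *
    ev f (1 / ((k : ℂ) + 1 + z))) (ev (G f) z)

/-- The nonzero spectrum of `G` is the set of values of the sequence `l`, and each `l j` is an
eigenvalue of algebraic multiplicity one. -/
def IsSimpleSpectrum (G : XS →L[ℂ] XS) (l : ℕ → ℝ) : Prop :=
  (∀ μ : ℂ, μ ≠ 0 → (μ ∈ spectrum ℂ G ↔ ∃ j, μ = (l j : ℂ))) ∧
    (∀ μ : ℂ, μ ≠ 0 → (HasEigenvalue (G : XS →ₗ[ℂ] XS) μ ↔ ∃ j, μ = (l j : ℂ))) ∧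
      ∀ j, finrank ℂ (maxGenEigenspace (G : XS →ₗ[ℂ] XS) (l j : ℂ)) = 1

/-- The transfer operator `G_4` is a compact operator on `X`. Its nonzero spectrum is the set of
values of a sequence of real numbers `l 0, l 1, …` with strictly decreasing absolute values, each
of which is an eigenvalue of algebraic multiplicity one, and the signs of which alternate,
starting with `l 0 > 0`. -/
theorem result :
    (∀ z ∈ Dbar, ∀ k : ℕ, 1 / ((k : ℂ) + 1 + z) ∈ Dbar) ∧ (∃ G, IsG4 G) ∧
    ∀ G, IsG4 G → IsCompactOperator G ∧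
      ∃ l : ℕ → ℝ, IsSimpleSpectrum G l ∧ (∀ j, |l (j + 1)| < |l j|) ∧
        ∀ j, 0 < (-1) ^ j * l j := by
  obtain ⟨G₀, hG₀, hc, l, h1, h2, h3, h4⟩ := main
  refine ⟨fun z hz k => ?_, ⟨G₀, hG₀⟩, fun (G : X →L[ℂ] X) hG => ?_⟩
  · exact Metric.closedBall_subset_closedBall (by norm_num)
      (inv_mem z (re_ge_of_mem_Dbar hz) k)
  · have hGG : G = G₀ := by
      refine ContinuousLinearMap.ext fun f => ?_
      exact X_ext _ _ fun z hz => (hG f z hz).unique (hG₀ f z hz)
    subst hGG
    refine ⟨hc, l, ⟨fun μ hμ => ?_, h3, h4⟩, h2, h1⟩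
    rw [← h3 μ hμ]
    exact (hc.hasEigenvalue_iff_mem_spectrum hμ).symm

end Pool.Agent.Results.MP_9ff751_an.Alternate
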